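import Pool.Agent.Helper24.UV.Arg
import Pool.Agent.Helper69.UW.Defs

/-!
# UW: moderate deviations of `S(t + h) - S(t)`

From the two measure statements `Mp`, `Mm` of `Helper69/UW/Defs`: with `x = h log T / (2 π)`, the set of the `t` in `[T, 2T]` with
`S(t+h) - S(t) ≥ V` has measure at least `exp (-(π²/2 + ε) V² / log (x / V²)) T`, and so has the set with `≤ -V`, for
`C log x ≤ V ≤ η √x`, `C ≤ x`, `h ≤ c₁ / log log T`.
-/

set_option autoImplicit false
open MeasureTheory Set Filter Topology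
open Pool.Agent.Helper57.PC Pool.Agent.Helper93.UG Pool.Agent.Helper56.UG Pool.Agent.Helper49.UG

namespace Pool.Agent.Helper93.UW

/-- `V` replaced by `V + 1` costs only a factor close to one in the exponent. -/
lemma expo_succ {a ε : ℝ} (ha : 0 < a) (hε : 0 < ε) : ∃ V₁ : ℝ, 1 ≤ V₁ ∧ ∀ V x : ℝ, V₁ ≤ V → 16 * V ^ 2 ≤ x →
    (a + ε / 2) * (V + 1) ^ 2 / Real.log (x / (V + 1) ^ 2) ≤ (a + ε) * V ^ 2 / Real.log (x / V ^ 2) := by
  -- `κ` with `(a + ε/2) (1 + κ)^2 ≤ (a + ε)(1 - 2κ)`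
  obtain ⟨κ, hκ0, hκ1, hκ⟩ : ∃ κ : ℝ, 0 < κ ∧ κ ≤ 1 / 4 ∧ (a + ε / 2) * (1 + κ) ^ 2 ≤ (a + ε) * (1 - 2 * κ) := by
    refine ⟨min (1 / 4) (ε / (16 * (a + ε))), by positivity, min_le_left _ _, ?_⟩
    obtain ⟨κ, hk⟩ : ∃ κ, κ = min (1 / 4) (ε / (16 * (a + ε))) := ⟨_, rfl⟩
    rw [← hk]
    have h1 : κ ≤ 1 / 4 := hk ▸ min_le_left _ _
    have h2 : κ ≤ ε / (16 * (a + ε)) := hk ▸ min_le_right _ _
    have h0 : 0 < κ := hk ▸ (by positivity)
    have h3 : κ * (16 * (a + ε)) ≤ ε := by rwa [le_div_iff₀ (by positivity)] at h2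
    have h4 : (1 + κ) ^ 2 ≤ 1 + 9 / 4 * κ := by nlinarith
    have h5 : (a + ε / 2) * (1 + κ) ^ 2 ≤ (a + ε / 2) * (1 + 9 / 4 * κ) := mul_le_mul_of_nonneg_left h4 (by positivity)
    have h6 : (a + ε / 2) * κ ≤ (a + ε) * κ := mul_le_mul_of_nonneg_right (by linarith) h0.le
    linarith
  refine ⟨1 / κ, ?_, fun V x hV hx => ?_⟩
  · rw [le_div_iff₀ hκ0]
    linarith
  have hV0 : 0 < V := lt_of_lt_of_le (by positivity) hV
  have hV1 : 1 ≤ κ * V := by
    rw [div_le_iff₀ hκ0] at hV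
    linarith
  have hV2 : V + 1 ≤ (1 + κ) * V := by linarith
  have hV3 : (V + 1) ^ 2 ≤ ((1 + κ) * V) ^ 2 := by
    apply pow_le_pow_left₀ (by positivity) hV2
  have hx0 : 0 < x := lt_of_lt_of_le (by positivity) hx
  -- logarithms
  have hl1 : 1 ≤ Real.log (x / V ^ 2) := by
    have h1 : (16:ℝ) ≤ x / V ^ 2 := by rwa [le_div_iff₀ (by positivity)]
    have h2 := Real.log_le_log (by norm_num) h1
    have h3 : (1:ℝ) ≤ Real.log 16 := by
      rw [Real.le_log_iff_exp_le (by norm_num)]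
      linarith [Real.exp_one_lt_d9]
    linarith
  have hl2 : Real.log (x / V ^ 2) - 2 * κ ≤ Real.log (x / (V + 1) ^ 2) := by
    have h1 : Real.log (x / V ^ 2) = Real.log x - 2 * Real.log V := by
      rw [Real.log_div hx0.ne' (by positivity), Real.log_pow]
      norm_num
    have h2 : Real.log (x / (V + 1) ^ 2) = Real.log x - 2 * Real.log (V + 1) := by
      rw [Real.log_div hx0.ne' (by positivity), Real.log_pow]
      norm_num
    have h3 : Real.log (V + 1) ≤ Real.log V + κ := by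
      have h4 := Real.log_le_log (by positivity) hV2
      rw [Real.log_mul (by positivity) hV0.ne'] at h4
      have h5 := Real.log_le_sub_one_of_pos (show 0 < 1 + κ by linarith)
      linarith
    rw [h1, h2]
    linarith
  have hl3 : (1 - 2 * κ) * Real.log (x / V ^ 2) ≤ Real.log (x / (V + 1) ^ 2) := by
    nlinarith
  have hp1 : 0 < (1 - 2 * κ) * Real.log (x / V ^ 2) := mul_pos (by linarith) (by linarith)
  calc (a + ε / 2) * (V + 1) ^ 2 / Real.log (x / (V + 1) ^ 2)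
      ≤ (a + ε / 2) * ((1 + κ) * V) ^ 2 / ((1 - 2 * κ) * Real.log (x / V ^ 2)) := by
        apply div_le_div₀ (by positivity) (mul_le_mul_of_nonneg_left hV3 (by positivity)) hp1 hl3
    _ = ((a + ε / 2) * (1 + κ) ^ 2) / (1 - 2 * κ) * (V ^ 2 / Real.log (x / V ^ 2)) := by
        field_simp
    _ ≤ (a + ε) * (V ^ 2 / Real.log (x / V ^ 2)) := by
        apply mul_le_mul_of_nonneg_right _ (by positivity)
        rw [div_le_iff₀ (by linarith)]
        exact hκ
    _ = _ := by ring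

/-- Moderate deviations of `S(t + h) - S(t)`, both signs, from the two measure statements. -/
theorem arg_moderate_of (hp : Pool.Agent.Helper69.UW.Mp) (hm : Pool.Agent.Helper69.UW.Mm) : ∀ ε : ℝ, 0 < ε →
    ∃ C η c₁ T₀ : ℝ, 0 < C ∧ 0 < η ∧ 0 < c₁ ∧ ∀ T : ℝ, T₀ ≤ T → ∀ h x V : ℝ, x = h * Real.log T / (2 * Real.pi) →
    C ≤ x → h ≤ c₁ / Real.log (Real.log T) → C * Real.log x ≤ V → V ≤ η * √x →
    ENNReal.ofReal (Real.exp (-((Real.pi ^ 2 / 2 + ε) * V ^ 2 / Real.log (x / V ^ 2))) * T) ≤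
      volume {t : ℝ | T ≤ t ∧ t ≤ 2 * T ∧ V ≤
        ((zc (Ioc 0 (t + h)) : ℝ) - (t + h) / (2 * Real.pi) * Real.log ((t + h) / (2 * Real.pi * Real.exp 1))) -
          ((zc (Ioc 0 t) : ℝ) - t / (2 * Real.pi) * Real.log (t / (2 * Real.pi * Real.exp 1)))} ∧
    ENNReal.ofReal (Real.exp (-((Real.pi ^ 2 / 2 + ε) * V ^ 2 / Real.log (x / V ^ 2))) * T) ≤
      volume {t : ℝ | T ≤ t ∧ t ≤ 2 * T ∧
        ((zc (Ioc 0 (t + h)) : ℝ) - (t + h) / (2 * Real.pi) * Real.log ((t + h) / (2 * Real.pi * Real.exp 1))) -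
          ((zc (Ioc 0 t) : ℝ) - t / (2 * Real.pi) * Real.log (t / (2 * Real.pi * Real.exp 1))) ≤ -V} := by
  intro ε hε
  obtain ⟨B, c₁, T₁, hB, hc1, H⟩ := hp ε hε
  obtain ⟨B', c₁', T₁', hB', hc1', H'⟩ := hm (ε / 2) (by positivity)
  obtain ⟨V₁, hV₁, HV⟩ := expo_succ (show 0 < Real.pi ^ 2 / 2 by positivity) hε
  have hpi := Real.pi_pos
  have hpi3 := Real.pi_gt_three
  have ev : ∀ᶠ T : ℝ in atTop, 1 ≤ Real.log (Real.log T) ∧ 10 ≤ T ∧ T₁ ≤ T ∧ T₁' ≤ T := by
    have e3 : Tendsto (fun T : ℝ => Real.log (Real.log T)) atTop atTop := Real.tendsto_log_atTop.comp Real.tendsto_log_atTop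
    filter_upwards [e3.eventually_ge_atTop 1, eventually_ge_atTop (10:ℝ),
      eventually_ge_atTop T₁, eventually_ge_atTop T₁'] with T a2 a3 a4 a5
    exact ⟨a2, a3, a4, a5⟩
  obtain ⟨T₀, hT₀⟩ := eventually_atTop.1 ev
  obtain ⟨C, hC⟩ : ∃ C, C = max (max B (B' + V₁)) 3 := ⟨_, rfl⟩
  obtain ⟨D, hD⟩ : ∃ D, D = min (min c₁ c₁') (1 / (2 * Real.pi)) := ⟨_, rfl⟩
  have hC1 : B ≤ C := by rw [hC]; exact (le_max_left _ _).trans (le_max_left _ _)
  have hC2 : B' + V₁ ≤ C := by rw [hC]; exact (le_max_right _ _).trans (le_max_left _ _)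
  have hC3 : 3 ≤ C := by rw [hC]; exact le_max_right _ _
  have hD1 : D ≤ c₁ := by rw [hD]; exact (min_le_left _ _).trans (min_le_left _ _)
  have hD2 : D ≤ c₁' := by rw [hD]; exact (min_le_left _ _).trans (min_le_right _ _)
  have hD3 : D ≤ 1 / (2 * Real.pi) := by rw [hD]; exact min_le_right _ _
  have hD0 : 0 < D := by rw [hD]; positivity
  have hC0 : 0 < C := by linarith
  refine ⟨C, 1 / (4 * (B + B')), 2 * Real.pi * D, T₀, hC0, by positivity, by positivity, ?_⟩
  intro T hT h c V hc hcC hh2 hV hV2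
  obtain ⟨b2, b3, b4, b5⟩ := hT₀ T hT
  have hL : 0 < Real.log T := Real.log_pos (by linarith)
  have hLL : 0 < Real.log (Real.log T) := by linarith
  have hh : h = c * sp T := by
    rw [hc]
    unfold sp
    field_simp
  have hcD : c ≤ D * (Real.log T / Real.log (Real.log T)) := by
    rw [hc, div_le_iff₀ (by positivity)]
    have h1 := mul_le_mul_of_nonneg_right hh2 hL.le
    calc h * Real.log T ≤ 2 * Real.pi * D / Real.log (Real.log T) * Real.log T := h1
      _ = D * (Real.log T / Real.log (Real.log T)) * (2 * Real.pi) := by ring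
  have hq0 : 0 ≤ Real.log T / Real.log (Real.log T) := by positivity
  have hc' : 0 < c := by linarith
  have hT0 : 0 < T := by linarith
  have hh0 : 0 ≤ h := by
    have : 0 < sp T := by unfold sp; positivity
    rw [hh]
    positivity
  have hh3 : h ≤ 1 := by
    refine hh2.trans ?_
    rw [div_le_one hLL]
    have h1 := mul_le_mul_of_nonneg_left hD3 (show 0 ≤ 2 * Real.pi by positivity)
    have h2 : 2 * Real.pi * (1 / (2 * Real.pi)) = 1 := by field_simp
    linarith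
  have hlogT : c = h / (2 * Real.pi) * Real.log T := by
    rw [hc]
    ring
  have hlc : 1 ≤ Real.log c := by
    rw [Real.le_log_iff_exp_le hc']
    linarith [Real.exp_one_lt_d9]
  have hVB : B * Real.log c ≤ V := (mul_le_mul_of_nonneg_right hC1 (by linarith)).trans hV
  have hVB' : (B' + V₁) * Real.log c ≤ V := (mul_le_mul_of_nonneg_right hC2 (by linarith)).trans hV
  have hVV1 : V₁ ≤ V := by
    have h1 : (0:ℝ) ≤ B' * Real.log c := by positivity
    nlinarith
  have hV0 : 0 < V := by linarith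
  have hV4 : 4 * (B + B') * V ≤ √c := by
    rw [div_mul_eq_mul_div, one_mul, le_div_iff₀ (by positivity)] at hV2
    linarith
  have hBV : B * V ≤ √c := by nlinarith
  have hBV' : B' * (V + 1) ≤ √c := by nlinarith
  have hVc : 16 * V ^ 2 ≤ c := by
    have h1 : 4 * V ≤ √c := by nlinarith
    have h2 : (4 * V) ^ 2 ≤ √c ^ 2 := pow_le_pow_left₀ (by positivity) h1 2
    rw [Real.sq_sqrt hc'.le] at h2
    linarith
  have hfin : ∀ x y : ℝ, volume {g : ℝ | IsOrd g ∧ g ∈ Icc x y} = 0 := fun x y => (ord_fin x y).measure_zero _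
  constructor
  · have hvol := H T b4 c V (hC1.trans hcC) hVB hBV (hcD.trans (mul_le_mul_of_nonneg_right hD1 hq0))
    refine hvol.trans ?_
    refine (measure_mono (t := {t : ℝ | T ≤ t ∧ t ≤ 2 * T ∧ V ≤
        ((zc (Ioc 0 (t + h)) : ℝ) - (t + h) / (2 * Real.pi) * Real.log ((t + h) / (2 * Real.pi * Real.exp 1))) -
          ((zc (Ioc 0 t) : ℝ) - t / (2 * Real.pi) * Real.log (t / (2 * Real.pi * Real.exp 1)))} ∪
        {g : ℝ | IsOrd g ∧ g ∈ Icc T (2 * T)}) ?_).trans ?_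
    swap
    · refine (measure_union_le _ _).trans ?_
      rw [hfin, add_zero]
    rintro t ⟨ht1, ht2, ht3⟩
    by_cases ht4 : IsOrd t
    · exact Or.inr ⟨ht4, ht1, ht2⟩
    refine Or.inl ⟨ht1, ht2, ?_⟩
    rw [← hh] at ht3
    have ht0 : 0 < t := by linarith
    have hstep := zc_step ht0 hh0 ht4
    have hM := Mt_diff ht0 hh0
    have hM2 : h / (2 * Real.pi) * Real.log ((t + h) / (2 * Real.pi)) ≤ c := by
      have h1 : Real.log ((t + h) / (2 * Real.pi)) ≤ Real.log T := by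
        apply Real.log_le_log (by positivity)
        rw [div_le_iff₀ (by positivity)]
        nlinarith
      rw [hlogT]
      exact mul_le_mul_of_nonneg_left h1 (by positivity)
    unfold Mt at hM
    linarith
  · have hvol := H' T b5 c (V + 1) (by linarith) (by nlinarith) hBV' (hcD.trans (mul_le_mul_of_nonneg_right hD2 hq0))
    have hexp : ENNReal.ofReal (Real.exp (-((Real.pi ^ 2 / 2 + ε) * V ^ 2 / Real.log (c / V ^ 2))) * T) ≤
        ENNReal.ofReal (Real.exp (-((Real.pi ^ 2 / 2 + ε / 2) * (V + 1) ^ 2 / Real.log (c / (V + 1) ^ 2))) * T) := by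
      apply ENNReal.ofReal_le_ofReal
      apply mul_le_mul_of_nonneg_right _ hT0.le
      exact Real.exp_le_exp.mpr (neg_le_neg (HV V c hVV1 hVc))
    refine hexp.trans (hvol.trans ?_)
    have hz : volume ((fun g => g - h) '' {g : ℝ | IsOrd g ∧ g ∈ Icc T (2 * T + 1)}) = 0 :=
      ((ord_fin T (2 * T + 1)).image _).measure_zero _
    refine (measure_mono (t := {t : ℝ | T ≤ t ∧ t ≤ 2 * T ∧
        ((zc (Ioc 0 (t + h)) : ℝ) - (t + h) / (2 * Real.pi) * Real.log ((t + h) / (2 * Real.pi * Real.exp 1))) -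
          ((zc (Ioc 0 t) : ℝ) - t / (2 * Real.pi) * Real.log (t / (2 * Real.pi * Real.exp 1))) ≤ -V} ∪
        (fun g => g - h) '' {g : ℝ | IsOrd g ∧ g ∈ Icc T (2 * T + 1)}) ?_).trans ?_
    swap
    · refine (measure_union_le _ _).trans ?_
      rw [hz, add_zero]
    rintro t ⟨ht1, ht2, ht3, -⟩
    by_cases ht4 : IsOrd (t + h)
    · exact Or.inr ⟨t + h, ⟨ht4, by linarith, by linarith⟩, by simp⟩
    refine Or.inl ⟨ht1, ht2, ?_⟩
    rw [← hh] at ht3
    have ht0 : 0 < t := by linarith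
    have hstep := zc_step' ht0 hh0 ht4
    have hM := Mt_diff' ht0 hh0
    have hM2 : c - 1 ≤ h / (2 * Real.pi) * Real.log (t / (2 * Real.pi)) := by
      have h1 : Real.log T - Real.log (2 * Real.pi) ≤ Real.log (t / (2 * Real.pi)) := by
        rw [Real.log_div ht0.ne' (by positivity)]
        linarith [Real.log_le_log hT0 ht1]
      have h2 : Real.log (2 * Real.pi) ≤ 2 * Real.pi := by
        have := Real.log_le_sub_one_of_pos (show 0 < 2 * Real.pi by positivity)
        linarith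
      have h3 : h / (2 * Real.pi) * Real.log (2 * Real.pi) ≤ 1 := by
        calc h / (2 * Real.pi) * Real.log (2 * Real.pi) ≤ h / (2 * Real.pi) * (2 * Real.pi) :=
              mul_le_mul_of_nonneg_left h2 (by positivity)
          _ = h := by field_simp
          _ ≤ 1 := hh3
      have h4 := mul_le_mul_of_nonneg_left h1 (show 0 ≤ h / (2 * Real.pi) by positivity)
      rw [mul_sub, ← hlogT] at h4
      linarith
    unfold Mt at hM
    linarith

end Pool.Agent.Helper93.UW
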