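import Pool.Agent.Helper24.WS.Red

/-!
# UW: the final statement, one exponent for all `V`
-/

set_option autoImplicit false
open MeasureTheory Set Filter Topology
open Pool.Agent.Helper57.PC Pool.Agent.Helper93.UG

namespace Pool.Agent.Helper93.UW

/-- The exponent: `(π²/2 + ε) V² / log (r/V²) + C log r` for `r ≥ r₀`, `0 ≤ V ≤ η √r`, and `A r` otherwise. -/
noncomputable def cost (ε C η A : ℝ) (r₀ r : ℕ) (V : ℝ) : ℝ :=
  if r₀ ≤ r ∧ 0 ≤ V ∧ V ≤ η * √r then (Real.pi ^ 2 / 2 + ε) * V ^ 2 / Real.log (r / V ^ 2) + C * Real.log r else A * r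

/-- The final statement. -/
def Final4 : Prop := ∃ Θ : ℝ, 0 < Θ ∧ ∀ ε : ℝ, 0 < ε → ∃ (r₀ : ℕ) (C η δ A T₀ : ℝ), 0 < C ∧ 0 < η ∧ 0 < δ ∧
  ∀ T : ℝ, T₀ ≤ T → ∀ r : ℕ, 1 ≤ r → (r : ℝ) ≤ δ * (Real.log T / Real.log (Real.log T)) →
  ∀ V : ℝ, V ≤ (if r₀ ≤ r then 1 - ε else Θ) * √r →
    Real.exp (-cost ε C η A r₀ r V) * (T * Real.log T) ≤ ((Glong T (r + V) r).ncard : ℝ) ∧
    Real.exp (-cost ε C η A r₀ r V) * (T * Real.log T) ≤ ((Gshort T (r - V) r).ncard : ℝ)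

theorem final4_of (h : Pool.Agent.Helper24.WS.Final3) : Final4 := by
  obtain ⟨Θ, hΘ, h⟩ := h
  refine ⟨min Θ (1 / 2), by positivity, fun ε hε => ?_⟩
  obtain ⟨ε', hε'⟩ : ∃ ε', ε' = min ε (1 / 2) := ⟨_, rfl⟩
  have hε'0 : 0 < ε' := by rw [hε']; positivity
  have hε'2 : ε' ≤ 1 / 2 := by rw [hε']; exact min_le_right _ _
  have hε'ε : ε' ≤ ε := by rw [hε']; exact min_le_left _ _
  obtain ⟨r₁, C₃, η₃, δ, A, T₁, hη₃, hδ, H⟩ := h ε' hε'0
  obtain ⟨C₁, hC₁⟩ : ∃ C₁, C₁ = max C₃ 1 := ⟨_, rfl⟩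
  have hC₁1 : 1 ≤ C₁ := by rw [hC₁]; exact le_max_right _ _
  have hC₁3 : C₃ ≤ C₁ := by rw [hC₁]; exact le_max_left _ _
  obtain ⟨η, hη⟩ : ∃ η, η = min η₃ (1 / 4) := ⟨_, rfl⟩
  have hη0 : 0 < η := by rw [hη]; positivity
  have hη4 : η ≤ 1 / 4 := by rw [hη]; exact min_le_right _ _
  have hηη : η ≤ η₃ := by rw [hη]; exact min_le_left _ _
  -- large `r`
  obtain ⟨r₂, hr₂⟩ : ∃ r₂ : ℕ, ∀ r : ℕ, r₂ ≤ r → 1 ≤ Real.log r ∧ C₁ * Real.log r ≤ η * √r ∧ (C₁ * Real.log r) ^ 2 ≤ √r := by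
    have e1 : ∀ᶠ x : ℝ in atTop, 1 ≤ Real.log x := Real.tendsto_log_atTop.eventually_ge_atTop 1
    have e2 : ∀ᶠ x : ℝ in atTop, ‖Real.log x‖ ≤ (min η 1 / C₁) * ‖x ^ (1 / 4 : ℝ)‖ :=
      (isLittleO_log_rpow_atTop (by norm_num : (0:ℝ) < 1 / 4)).bound (by positivity)
    have e3 : ∀ᶠ x : ℝ in atTop, (1:ℝ) ≤ x := eventually_ge_atTop 1
    obtain ⟨R, hR⟩ := eventually_atTop.mp (e1.and (e2.and e3))
    refine ⟨⌈R⌉₊, fun r hr => ?_⟩
    have hRr : R ≤ r := (Nat.le_ceil R).trans (by exact_mod_cast hr)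
    obtain ⟨a1, a2, a3⟩ := hR r hRr
    have hx0 : (0:ℝ) < r := by linarith
    have a4 : ‖(r:ℝ) ^ (1 / 4 : ℝ)‖ = (r:ℝ) ^ (1 / 4 : ℝ) := Real.norm_of_nonneg (by positivity)
    have a5 : ‖Real.log r‖ = Real.log r := Real.norm_of_nonneg (by linarith)
    rw [a4, a5] at a2
    have a6 : ((r:ℝ) ^ (1 / 4 : ℝ)) ^ 2 = √r := by
      rw [← Real.rpow_natCast, ← Real.rpow_mul hx0.le, Real.sqrt_eq_rpow]
      norm_num
    have a7 : (1:ℝ) ≤ (r:ℝ) ^ (1 / 4 : ℝ) := Real.one_le_rpow a3 (by norm_num)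
    have a8 : C₁ * Real.log r ≤ min η 1 * (r:ℝ) ^ (1 / 4 : ℝ) := by
      calc C₁ * Real.log r ≤ C₁ * (min η 1 / C₁ * (r:ℝ) ^ (1 / 4 : ℝ)) := mul_le_mul_of_nonneg_left a2 (by positivity)
        _ = min η 1 * (r:ℝ) ^ (1 / 4 : ℝ) := by field_simp
    refine ⟨a1, ?_, ?_⟩
    · calc C₁ * Real.log r ≤ min η 1 * (r:ℝ) ^ (1 / 4 : ℝ) := a8
        _ ≤ η * (r:ℝ) ^ (1 / 4 : ℝ) := mul_le_mul_of_nonneg_right (min_le_left _ _) (by positivity)
        _ ≤ η * √r := by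
          rw [← a6]
          apply mul_le_mul_of_nonneg_left _ hη0.le
          nlinarith
    · rw [← a6]
      apply pow_le_pow_left₀ (by positivity)
      calc C₁ * Real.log r ≤ min η 1 * (r:ℝ) ^ (1 / 4 : ℝ) := a8
        _ ≤ 1 * (r:ℝ) ^ (1 / 4 : ℝ) := mul_le_mul_of_nonneg_right (min_le_right _ _) (by positivity)
        _ = _ := one_mul _
  refine ⟨max r₁ r₂, 2 * (Real.pi ^ 2 / 2 + ε') * C₁ ^ 2, η, δ, A, max T₁ (Real.exp 1), by positivity, hη0, hδ, ?_⟩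
  intro T hT r hr hrT V hV
  have hT1 : T₁ ≤ T := (le_max_left _ _).trans hT
  have hTe : Real.exp 1 ≤ T := (le_max_right _ _).trans hT
  have hT0 : 0 < T := (Real.exp_pos 1).trans_le hTe
  have hLT : 1 ≤ Real.log T := by rwa [Real.le_log_iff_exp_le hT0]
  have hTL : 0 ≤ T * Real.log T := by positivity
  have hVθ : V ≤ (if r₁ ≤ r then 1 - ε' else Θ) * √r := by
    refine hV.trans (mul_le_mul_of_nonneg_right ?_ (Real.sqrt_nonneg _))
    by_cases h10 : max r₁ r₂ ≤ r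
    · rw [if_pos h10, if_pos ((le_max_left _ _).trans h10)]
      linarith
    · rw [if_neg h10]
      by_cases h11 : r₁ ≤ r
      · rw [if_pos h11]
        refine (min_le_right _ _).trans ?_
        linarith
      · rw [if_neg h11]
        exact min_le_left _ _
  by_cases hcase : max r₁ r₂ ≤ r ∧ 0 ≤ V ∧ V ≤ η * √r
  swap
  · unfold cost
    rw [if_neg hcase]
    exact H T hT1 r hr hrT V hVθ (A * r) (Or.inl rfl)
  obtain ⟨hr0, hV0, hVη⟩ := hcase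
  have hr1 : r₁ ≤ r := (le_max_left _ _).trans hr0
  obtain ⟨b1, b2, b3⟩ := hr₂ r ((le_max_right _ _).trans hr0)
  have hx1 : (1:ℝ) ≤ r := by exact_mod_cast hr
  have hx0 : (0:ℝ) < r := by linarith
  have hs0 : 0 < √(r:ℝ) := Real.sqrt_pos.mpr hx0
  have hfirst : 0 ≤ V ^ 2 / Real.log (r / V ^ 2) := by
    rcases hV0.eq_or_lt with h0 | h0
    · rw [← h0]; simp
    · apply div_nonneg (sq_nonneg _)
      apply Real.log_nonneg
      rw [le_div_iff₀ (by positivity)]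
      have h1 : V ≤ √(r:ℝ) := hVη.trans (by nlinarith)
      have h2 : V ^ 2 ≤ √(r:ℝ) ^ 2 := pow_le_pow_left₀ hV0 h1 2
      rw [Real.sq_sqrt hx0.le] at h2
      linarith
  have hcost : cost ε (2 * (Real.pi ^ 2 / 2 + ε') * C₁ ^ 2) η A (max r₁ r₂) r V =
      (Real.pi ^ 2 / 2 + ε) * V ^ 2 / Real.log (r / V ^ 2) + 2 * (Real.pi ^ 2 / 2 + ε') * C₁ ^ 2 * Real.log r := by
    unfold cost
    rw [if_pos ⟨hr0, hV0, hVη⟩]
  by_cases hVC : C₁ * Real.log r ≤ V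
  · have h1 := H T hT1 r hr hrT V hVθ ((Real.pi ^ 2 / 2 + ε') * (V ^ 2 / Real.log (r / V ^ 2)))
      (Or.inr ⟨hr1, (mul_le_mul_of_nonneg_right hC₁3 (by linarith)).trans hVC,
        hVη.trans (mul_le_mul_of_nonneg_right hηη hs0.le), rfl⟩)
    have h2 : Real.exp (-cost ε (2 * (Real.pi ^ 2 / 2 + ε') * C₁ ^ 2) η A (max r₁ r₂) r V) * (T * Real.log T) ≤
        Real.exp (-((Real.pi ^ 2 / 2 + ε') * (V ^ 2 / Real.log (r / V ^ 2)))) * (T * Real.log T) := by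
      apply mul_le_mul_of_nonneg_right _ hTL
      apply Real.exp_le_exp.mpr
      rw [hcost, mul_div_assoc]
      have h3 : (Real.pi ^ 2 / 2 + ε') * (V ^ 2 / Real.log (r / V ^ 2)) ≤ (Real.pi ^ 2 / 2 + ε) * (V ^ 2 / Real.log (r / V ^ 2)) :=
        mul_le_mul_of_nonneg_right (by linarith) hfirst
      have h4 : 0 ≤ 2 * (Real.pi ^ 2 / 2 + ε') * C₁ ^ 2 * Real.log r := by positivity
      linarith
    exact ⟨h2.trans h1.1, h2.trans h1.2⟩
  · push Not at hVC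
    obtain ⟨W, hW⟩ : ∃ W, W = C₁ * Real.log r := ⟨_, rfl⟩
    rw [← hW] at hVC b2 b3
    have hW0 : 1 ≤ W := by rw [hW]; nlinarith
    have hWθ : W ≤ (if r₁ ≤ r then 1 - ε' else Θ) * √r := by
      rw [if_pos hr1]
      refine b2.trans (mul_le_mul_of_nonneg_right ?_ hs0.le)
      linarith
    have h1 := H T hT1 r hr hrT W hWθ ((Real.pi ^ 2 / 2 + ε') * (W ^ 2 / Real.log (r / W ^ 2)))
      (Or.inr ⟨hr1, by rw [hW]; exact mul_le_mul_of_nonneg_right hC₁3 (by linarith),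
        b2.trans (mul_le_mul_of_nonneg_right hηη hs0.le), rfl⟩)
    have hlog : Real.log r / 2 ≤ Real.log (r / W ^ 2) := by
      have h5 : Real.log √(r:ℝ) = Real.log r / 2 := Real.log_sqrt hx0.le
      rw [← h5]
      apply Real.log_le_log hs0
      rw [le_div_iff₀ (by positivity)]
      calc √(r:ℝ) * W ^ 2 ≤ √(r:ℝ) * √(r:ℝ) := mul_le_mul_of_nonneg_left b3 hs0.le
        _ = r := Real.mul_self_sqrt hx0.le
    have hE : (Real.pi ^ 2 / 2 + ε') * (W ^ 2 / Real.log (r / W ^ 2)) ≤ 2 * (Real.pi ^ 2 / 2 + ε') * C₁ ^ 2 * Real.log r := by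
      have h5 : W ^ 2 / Real.log (r / W ^ 2) ≤ W ^ 2 / (Real.log r / 2) :=
        div_le_div_of_nonneg_left (sq_nonneg _) (by linarith) hlog
      have h6 : W ^ 2 / (Real.log r / 2) = 2 * C₁ ^ 2 * Real.log r := by
        rw [hW]
        field_simp
      calc (Real.pi ^ 2 / 2 + ε') * (W ^ 2 / Real.log (r / W ^ 2)) ≤ (Real.pi ^ 2 / 2 + ε') * (2 * C₁ ^ 2 * Real.log r) := by
            rw [← h6]; exact mul_le_mul_of_nonneg_left h5 (by positivity)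
        _ = _ := by ring
    have h2 : Real.exp (-cost ε (2 * (Real.pi ^ 2 / 2 + ε') * C₁ ^ 2) η A (max r₁ r₂) r V) * (T * Real.log T) ≤
        Real.exp (-((Real.pi ^ 2 / 2 + ε') * (W ^ 2 / Real.log (r / W ^ 2)))) * (T * Real.log T) := by
      apply mul_le_mul_of_nonneg_right _ hTL
      apply Real.exp_le_exp.mpr
      rw [hcost, mul_div_assoc]
      have h3 : 0 ≤ (Real.pi ^ 2 / 2 + ε) * (V ^ 2 / Real.log (r / V ^ 2)) := mul_nonneg (by positivity) hfirst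
      linarith
    refine ⟨h2.trans (h1.1.trans ?_), h2.trans (h1.2.trans ?_)⟩
    · exact_mod_cast Pool.Agent.Helper24.UV.Glong_mono (add_le_add_right hVC.le _) hTe r
    · exact_mod_cast Pool.Agent.Helper24.UV.Gshort_mono (sub_le_sub_left hVC.le _) hTe r

end Pool.Agent.Helper93.UW
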